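import Mathlib

/-!
A completely metrizable commutative topological group carries a complete invariant norm
inducing its topology; the open mapping theorem for complete normed groups which are
topological vector spaces.
-/

set_option autoImplicit false

namespace Pool.Agent.H268Z.FAlg

open Topology Filter Uniformity Set

theorem exists_groupNorm (E : Type) [AddCommGroup E] [t : TopologicalSpace E]
    [IsTopologicalAddGroup E] [FirstCountableTopology E] [T0Space E] :
    ∃ ρ : AddGroupNorm E,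
      ρ.toNormedAddCommGroup.toMetricSpace.toPseudoMetricSpace.toUniformSpace.toTopologicalSpace
        = t := by
  let u : UniformSpace E := IsTopologicalAddGroup.rightUniformSpace E
  have : IsUniformAddGroup E := isUniformAddGroup_of_addCommGroup
  have : (𝓤 E).IsCountablyGenerated := IsUniformAddGroup.uniformity_countably_generated
  let m : PseudoMetricSpace E := UniformSpace.pseudoMetricSpace E
  let r : E → ℝ := fun x => ⨆ a : E, min 1 (dist a (a + x))
  have hb : ∀ x : E, BddAbove (range fun a : E => min 1 (dist a (a + x))) := fun x =>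
    ⟨1, by rintro _ ⟨a, rfl⟩; exact min_le_left _ _⟩
  have hle : ∀ x a : E, min 1 (dist a (a + x)) ≤ r x := fun x a => le_ciSup (hb x) a
  have hr0 : r 0 = 0 := by simp [r]
  have hadd : ∀ x y : E, r (x + y) ≤ r x + r y := by
    intro x y
    refine ciSup_le fun a => ?_
    have h1 := hle x a
    have h2 := hle y (a + x)
    have h3 : dist a (a + (x + y)) ≤ dist a (a + x) + dist (a + x) (a + x + y) := by
      rw [← add_assoc]; exact dist_triangle _ _ _
    have h4 : 0 ≤ dist a (a + x) := dist_nonneg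
    have h5 : 0 ≤ dist (a + x) (a + x + y) := dist_nonneg
    rcases le_total 1 (dist a (a + x)) with h6 | h6 <;>
    rcases le_total 1 (dist (a + x) (a + x + y)) with h7 | h7 <;>
    simp only [min_eq_left, min_eq_right, h6, h7] at h1 h2 <;>
    first
      | exact (min_le_left _ _).trans (by linarith)
      | exact (min_le_right _ _).trans (by linarith)
  have hneg' : ∀ x : E, r (-x) ≤ r x := by
    intro x
    refine ciSup_le fun a => ?_
    have := hle x (a + -x)
    rwa [neg_add_cancel_right, dist_comm] at this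
  have hneg : ∀ x : E, r (-x) = r x := fun x =>
    le_antisymm (hneg' x) (by simpa using hneg' (-x))
  have hbasis : (𝓝 (0 : E)).HasBasis (fun ε : ℝ => 0 < ε) (fun ε => {x | r x < ε}) := by
    refine ⟨fun s => ⟨fun hs => ?_, ?_⟩⟩
    · obtain ⟨ε, hε, hsub⟩ := Metric.mem_nhds_iff.1 hs
      refine ⟨min 1 ε, lt_min one_pos hε, fun x hx => hsub ?_⟩
      have h1 := hle x 0
      have h2 : r x < min 1 ε := hx
      rw [zero_add] at h1
      rw [Metric.mem_ball, dist_comm]
      by_contra hc
      push Not at hc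
      have := min_le_min_left 1 hc
      linarith
    · rintro ⟨ε, hε, hsub⟩
      have h1 : {p : E × E | dist p.1 p.2 < ε / 2} ∈ 𝓤 E := Metric.dist_mem_uniformity (by linarith)
      rw [uniformity_eq_comap_nhds_zero E, mem_comap] at h1
      obtain ⟨V, hV, hVs⟩ := h1
      refine mem_of_superset hV fun x hx => hsub ?_
      have : r x ≤ ε / 2 := by
        refine ciSup_le fun a => (min_le_right _ _).trans (le_of_lt ?_)
        exact hVs (show (a, a + x) ∈ (fun p : E × E => p.2 - p.1) ⁻¹' V by simpa using hx)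
      show r x < ε
      linarith
  have hzero : ∀ x : E, r x = 0 → x = 0 := by
    intro x hx
    have : Inseparable x 0 := by
      have h1 : x ⤳ 0 := by
        rw [specializes_iff_pure, pure_le_iff]
        intro s hs
        obtain ⟨ε, hε, hsub⟩ := hbasis.mem_iff.1 hs
        exact hsub (show r x < ε by rw [hx]; exact hε)
      exact h1.inseparable
    exact this.eq
  let ρ : AddGroupNorm E := ⟨⟨r, hr0, hadd, hneg⟩, hzero⟩
  refine ⟨ρ, ?_⟩
  have hg : @IsTopologicalAddGroup E
      ρ.toNormedAddCommGroup.toMetricSpace.toPseudoMetricSpace.toUniformSpace.toTopologicalSpace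
      _ := by
    let := ρ.toNormedAddCommGroup
    infer_instance
  refine IsTopologicalAddGroup.ext hg inferInstance ?_
  have hb2 : (@nhds E
      ρ.toNormedAddCommGroup.toMetricSpace.toPseudoMetricSpace.toUniformSpace.toTopologicalSpace
      0).HasBasis (fun ε : ℝ => 0 < ε) (fun ε => {x | r x < ε}) := by
    let := ρ.toNormedAddCommGroup
    exact NormedAddGroup.nhds_zero_basis_norm_lt
  exact hb2.eq_of_same_basis hbasis

/-- A normed group whose topology is completely metrizable is complete. -/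
theorem complete_of_metrizable (E : Type) [NormedAddCommGroup E]
    [h : TopologicalSpace.IsCompletelyMetrizableSpace E] : CompleteSpace E := by
  obtain ⟨m, hm, hc⟩ := h.complete
  let d : E → E → ℝ := @dist E m.toDist
  let C := UniformSpace.Completion E
  let j : E → C := fun a => (a : C)
  have hj : IsUniformInducing j := UniformSpace.Completion.isUniformInducing_coe E
  have hjd : DenseRange j := UniformSpace.Completion.denseRange_coe
  let O : ℕ → Set C := fun n =>
    ⋃₀ {V | IsOpen V ∧ ∀ a b : E, j a ∈ V → j b ∈ V → d a b ≤ 1 / ((n : ℝ) + 1)}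
  have hO : ∀ n, IsOpen (O n) := fun n => isOpen_sUnion fun V hV => hV.1
  have hOj : ∀ n a, j a ∈ O n := by
    intro n a
    have hpos : (0 : ℝ) < 1 / ((n : ℝ) + 1) / 2 := by positivity
    have h1 : @Metric.ball E m.toPseudoMetricSpace a (1 / ((n : ℝ) + 1) / 2) ∈ 𝓝 a := by
      have := @Metric.ball_mem_nhds E m.toPseudoMetricSpace a _ hpos
      rw [hm] at this
      exact this
    rw [hj.isInducing.nhds_eq_comap, mem_comap] at h1
    obtain ⟨W, hW, hWs⟩ := h1
    obtain ⟨V, hVW, hV, haV⟩ := mem_nhds_iff.1 hW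
    refine ⟨V, ⟨hV, fun b c hb hc' => ?_⟩, haV⟩
    have hb' : d b a < 1 / ((n : ℝ) + 1) / 2 := hWs (hVW hb)
    have hc'' : d c a < 1 / ((n : ℝ) + 1) / 2 := hWs (hVW hc')
    have h3 : d b c ≤ d b a + d c a := @dist_triangle_right E m.toPseudoMetricSpace b c a
    linarith
  have hOd : ∀ n, Dense (O n) := fun n => hjd.mono (by rintro _ ⟨a, rfl⟩; exact hOj n a)
  have hkey : ∀ p : C, (∀ n, p ∈ O n) → p ∈ range j := by
    intro p hp
    have : NeBot (comap j (𝓝 p)) := comap_neBot fun s hs => hjd.mem_nhds hs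
    have hcau : @Cauchy E m.toUniformSpace (comap j (𝓝 p)) := by
      rw [@Metric.cauchy_iff E m.toPseudoMetricSpace]
      refine ⟨inferInstance, fun ε hε => ?_⟩
      obtain ⟨n, hn⟩ := exists_nat_one_div_lt hε
      obtain ⟨V, ⟨hV, hVd⟩, hpV⟩ := hp n
      refine ⟨j ⁻¹' V, preimage_mem_comap (hV.mem_nhds hpV), fun a ha b hb => ?_⟩
      exact lt_of_le_of_lt (hVd a b ha hb) hn
    obtain ⟨a, ha⟩ := @CompleteSpace.complete E m.toUniformSpace hc _ hcau
    rw [hm] at ha
    have h1 : Tendsto j (comap j (𝓝 p)) (𝓝 (j a)) :=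
      (hj.isInducing.continuous.tendsto a).mono_left ha
    have h2 : Tendsto j (comap j (𝓝 p)) (𝓝 p) := tendsto_comap
    exact ⟨a, tendsto_nhds_unique h1 h2⟩
  have hsurj : range j = univ := by
    refine eq_univ_of_forall fun x => ?_
    have hd : Dense (⋂ n, (O n ∩ (fun y => y + x) ⁻¹' O n)) := by
      refine dense_iInter_of_isOpen (fun n => (hO n).inter ((hO n).preimage (by fun_prop))) ?_
      intro n
      refine (hOd n).inter_of_isOpen_left ?_ (hO n)
      exact (hOd n).preimage (Homeomorph.addRight x).isOpenMap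
    obtain ⟨y, hy⟩ := hd.nonempty
    rw [mem_iInter] at hy
    obtain ⟨a, ha⟩ := hkey y fun n => (hy n).1
    obtain ⟨b, hb⟩ := hkey (y + x) fun n => (hy n).2
    refine ⟨b - a, ?_⟩
    have : j (b - a) = j b - j a := UniformSpace.Completion.coe_sub b a
    rw [this, ha, hb]
    abel
  rw [completeSpace_iff_isComplete_range hj, hsurj]
  exact isComplete_univ

section OMT

variable {E F : Type} [NormedAddCommGroup E] [Module ℂ E] [ContinuousSMul ℂ E]
  [NormedAddCommGroup F] [Module ℂ F] [ContinuousSMul ℂ F]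

lemma closure_image_mem [CompleteSpace F] (ψ : E →ₗ[ℂ] F) (hsurj : Function.Surjective ψ)
    {ε : ℝ} (hε : 0 < ε) : closure (ψ '' {x | ‖x‖ < ε}) ∈ 𝓝 (0 : F) := by
  let V : Set E := {x | ‖x‖ < ε / 2}
  have hV : V ∈ 𝓝 (0 : E) := NormedAddGroup.nhds_zero_basis_norm_lt.mem_of_mem (by linarith)
  have hcov : ⋃ n : ℕ, closure ((fun y : F => ((n : ℂ) + 1) • y) '' (ψ '' V)) = univ := by
    apply eq_univ_of_forall
    intro y
    obtain ⟨x, rfl⟩ := hsurj y
    have h1 : Tendsto (fun n : ℕ => ((n : ℂ) + 1)⁻¹ • x) atTop (𝓝 0) := by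
      have h2 : Tendsto (fun n : ℕ => ((n : ℂ) + 1)⁻¹) atTop (𝓝 0) := by
        have := tendsto_one_div_add_atTop_nhds_zero_nat (𝕜 := ℂ)
        simpa using this
      simpa using h2.smul_const x
    obtain ⟨n, hn⟩ := (h1.eventually hV).exists
    rw [mem_iUnion]
    refine ⟨n, subset_closure ⟨ψ (((n : ℂ) + 1)⁻¹ • x), ⟨_, hn, rfl⟩, ?_⟩⟩
    have h0 : ((n : ℂ) + 1) ≠ 0 := Nat.cast_add_one_ne_zero n
    show ((n : ℂ) + 1) • ψ (((n : ℂ) + 1)⁻¹ • x) = ψ x
    rw [map_smul, smul_smul, mul_inv_cancel₀ h0, one_smul]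
  obtain ⟨n, y0, hy0⟩ := nonempty_interior_of_iUnion_of_closed (fun n => isClosed_closure) hcov
  have h0 : ((n : ℂ) + 1) ≠ 0 := Nat.cast_add_one_ne_zero n
  have hcl : closure ((fun y : F => ((n : ℂ) + 1) • y) '' (ψ '' V)) =
      (fun y : F => ((n : ℂ) + 1) • y) '' closure (ψ '' V) :=
    ((Homeomorph.smulOfNeZero ((n : ℂ) + 1) h0).image_closure _).symm
  have hint : interior ((fun y : F => ((n : ℂ) + 1) • y) '' closure (ψ '' V)) =
      (fun y : F => ((n : ℂ) + 1) • y) '' interior (closure (ψ '' V)) :=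
    ((Homeomorph.smulOfNeZero ((n : ℂ) + 1) h0).image_interior _).symm
  rw [hcl, hint] at hy0
  obtain ⟨y1, hy1, -⟩ := hy0
  have hcont : ContinuousAt (fun w : F => y1 + w) 0 := by fun_prop
  have hW : {w : F | y1 + w ∈ closure (ψ '' V)} ∈ 𝓝 (0 : F) := by
    apply hcont.preimage_mem_nhds
    show _ ∈ 𝓝 (y1 + 0)
    rw [add_zero]
    exact mem_interior_iff_mem_nhds.mp hy1
  refine mem_of_superset hW ?_
  intro w hw
  have hw' : y1 + w ∈ closure (ψ '' V) := hw
  have hy1' : y1 ∈ closure (ψ '' V) := interior_subset hy1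
  have h5 : (y1 + w) - y1 ∈ closure (ψ '' {x | ‖x‖ < ε}) := by
    refine map_mem_closure₂ (f := fun a b : F => a - b) continuous_sub hw' hy1' ?_
    rintro _ ⟨a, ha, rfl⟩ _ ⟨b, hb, rfl⟩
    refine ⟨a - b, ?_, map_sub ψ a b⟩
    have h6 := norm_sub_le a b
    have ha' : ‖a‖ < ε / 2 := ha
    have hb' : ‖b‖ < ε / 2 := hb
    show ‖a - b‖ < ε
    linarith
  simpa using h5

/-- Open mapping theorem. -/
theorem image_mem_nhds [CompleteSpace E] [CompleteSpace F] (ψ : E →ₗ[ℂ] F) (hψ : Continuous ψ)
    (hsurj : Function.Surjective ψ) {ε : ℝ} (hε : 0 < ε) :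
    ψ '' {x | ‖x‖ ≤ ε} ∈ 𝓝 (0 : F) := by
  let a : ℕ → ℝ := fun k => ε / 2 / 2 ^ k
  have ha : ∀ k, 0 < a k := fun k => by positivity
  have hsa : HasSum a ε := hasSum_geometric_two' ε
  let W : ℕ → Set F := fun k => closure (ψ '' {x | ‖x‖ < a k})
  have hW : ∀ k, W k ∈ 𝓝 (0 : F) := fun k => closure_image_mem ψ hsurj (ha k)
  refine mem_of_superset (hW 0) ?_
  intro y hy
  have step : ∀ k (z : F), ∃ x : E, z ∈ W k →
      ‖x‖ < a k ∧ z - ψ x ∈ W (k + 1) ∧ ‖z - ψ x‖ < a k := by
    intro k z
    by_cases hz : z ∈ W k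
    · have hN : {w : F | z - w ∈ W (k + 1) ∩ {v | ‖v‖ < a k}} ∈ 𝓝 z := by
        have hc : ContinuousAt (fun w : F => z - w) z := by fun_prop
        apply hc.preimage_mem_nhds
        rw [sub_self]
        exact inter_mem (hW _) (NormedAddGroup.nhds_zero_basis_norm_lt.mem_of_mem (ha k))
      obtain ⟨w, hw, x, hx, rfl⟩ := mem_closure_iff_nhds.mp hz _ hN
      exact ⟨x, fun _ => ⟨hx, hw.1, hw.2⟩⟩
    · exact ⟨0, fun h => absurd h hz⟩
  choose f hf using step
  let z : ℕ → F := fun k => Nat.rec y (fun k z => z - ψ (f k z)) k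
  have hz0 : z 0 = y := rfl
  have hzs : ∀ k, z (k + 1) = z k - ψ (f k (z k)) := fun k => rfl
  have hzW : ∀ k, z k ∈ W k := by
    intro k
    induction k with
    | zero => exact hy
    | succ k ih => exact ((hf k (z k) ih).2).1
  let x : ℕ → E := fun k => f k (z k)
  have hx : ∀ k, ‖x k‖ ≤ a k := fun k => (hf k (z k) (hzW k)).1.le
  have hsx : Summable x := Summable.of_norm_bounded hsa.summable hx
  have hnorm : ‖∑' k, x k‖ ≤ ε := tsum_of_norm_bounded hsa hx
  have hsum : ∀ K, ψ (∑ k ∈ Finset.range K, x k) = y - z K := by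
    intro K
    induction K with
    | zero => simp [hz0]
    | succ K ih =>
      rw [Finset.sum_range_succ, map_add, ih, hzs]
      show y - z K + ψ (f K (z K)) = y - (z K - ψ (f K (z K)))
      abel
  have hz0' : Tendsto z atTop (𝓝 0) := by
    rw [← tendsto_add_atTop_iff_nat 1]
    refine squeeze_zero_norm (fun k => ((hf k (z k) (hzW k)).2).2.le) ?_
    exact hsa.summable.tendsto_atTop_zero
  have hlim1 : Tendsto (fun K => ψ (∑ k ∈ Finset.range K, x k)) atTop (𝓝 (ψ (∑' k, x k))) :=
    (hψ.tendsto _).comp hsx.hasSum.tendsto_sum_nat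
  have hlim2 : Tendsto (fun K => ψ (∑ k ∈ Finset.range K, x k)) atTop (𝓝 (y - 0)) := by
    have : (fun K => ψ (∑ k ∈ Finset.range K, x k)) = fun K => y - z K := funext hsum
    rw [this]
    exact tendsto_const_nhds.sub hz0'
  have hψs : ψ (∑' k, x k) = y := by
    have := tendsto_nhds_unique hlim1 hlim2
    rwa [sub_zero] at this
  exact ⟨_, hnorm, hψs⟩

/-- A linear map is continuous as soon as its composition with a continuous linear
surjection is. -/
theorem continuous_of_comp [CompleteSpace E] [CompleteSpace F] {G : Type} [NormedAddCommGroup G]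
    [Module ℂ G] (ψ : E →ₗ[ℂ] F) (hψ : Continuous ψ) (hsurj : Function.Surjective ψ)
    (g : F →ₗ[ℂ] G) (hg : Continuous fun x => g (ψ x)) : Continuous g := by
  refine continuous_of_continuousAt_zero g ?_
  rw [ContinuousAt, map_zero]
  intro s hs
  have h1 : (fun x => g (ψ x)) ⁻¹' s ∈ 𝓝 (0 : E) := by
    apply hg.continuousAt.preimage_mem_nhds
    simpa using hs
  obtain ⟨ε, hε, hsub⟩ := Metric.nhds_basis_closedBall.mem_iff.1 h1
  rw [mem_map]
  refine mem_of_superset (image_mem_nhds ψ hψ hsurj hε) ?_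
  rintro _ ⟨x, hx, rfl⟩
  exact hsub (by simpa using hx)

end OMT

end Pool.Agent.H268Z.FAlg
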