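import Pool.Agent.H268Z.FAlg.Main

set_option autoImplicit false

namespace Pool.Agent.H268Z.FAlg

open Topology TopologicalSpace MvPowerSeries

/-- type synonym carrying a group norm -/
def Syn (E : Type) [AddCommGroup E] (_ρ : AddGroupNorm E) : Type := E

noncomputable instance instNormed (E : Type) [AddCommGroup E] (ρ : AddGroupNorm E) :
    NormedAddCommGroup (Syn E ρ) := ρ.toNormedAddCommGroup

instance instModule (E : Type) [AddCommGroup E] [m : Module ℂ E] (ρ : AddGroupNorm E) :
    Module ℂ (Syn E ρ) := m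

theorem unique (k : ℕ) (S : Subalgebra ℂ (MvPowerSeries (Fin k) ℂ))
    (hS : ∀ p : MvPolynomial (Fin k) ℂ, (p : MvPowerSeries (Fin k) ℂ) ∈ S)
    (t₁ t₂ : TopologicalSpace S) (h1 : @IsTopologicalRing S t₁ _)
    (h2 : @ContinuousSMul ℂ S _ _ t₁) (h3 : @IsCompletelyMetrizableSpace S t₁)
    (h4 : ∀ n : Fin k →₀ ℕ,
      @Continuous S ℂ t₁ _ (fun a => MvPowerSeries.coeff n (a : MvPowerSeries (Fin k) ℂ)))
    (h5 : @IsTopologicalRing S t₂ _) (h6 : @ContinuousSMul ℂ S _ _ t₂)
    (h7 : @IsCompletelyMetrizableSpace S t₂) : t₁ = t₂ := by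
  have m1 : ∀ a : S, @Continuous S S t₁ t₁ fun b => a * b := fun a => by
    let := t₁
    exact continuous_const_mul a
  have m2 : ∀ a : S, @Continuous S S t₂ t₂ fun b => a * b := fun a => by
    let := t₂
    exact continuous_const_mul a
  obtain ⟨ρ₁, rfl⟩ : ∃ ρ : AddGroupNorm S,
      ρ.toNormedAddCommGroup.toMetricSpace.toPseudoMetricSpace.toUniformSpace.toTopologicalSpace
        = t₁ := by
    let := t₁
    exact exists_groupNorm S
  obtain ⟨ρ₂, rfl⟩ : ∃ ρ : AddGroupNorm S,
      ρ.toNormedAddCommGroup.toMetricSpace.toPseudoMetricSpace.toUniformSpace.toTopologicalSpace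
        = t₂ := by
    let := t₂
    exact exists_groupNorm S
  have i1 : ContinuousSMul ℂ (Syn S ρ₁) := h2
  have i2 : ContinuousSMul ℂ (Syn S ρ₂) := h6
  have i3 : IsCompletelyMetrizableSpace (Syn S ρ₁) := h3
  have i4 : IsCompletelyMetrizableSpace (Syn S ρ₂) := h7
  have i5 : CompleteSpace (Syn S ρ₁) := complete_of_metrizable _
  have i6 : CompleteSpace (Syn S ρ₂) := complete_of_metrizable _
  let D : Setup k (Syn S ρ₁) (Syn S ρ₂) :=
    { e := LinearEquiv.refl ℂ S
      ι := S.val.toLinearMap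
      inj := Subtype.val_injective
      cont := h4
      M₁ := fun a => ⟨LinearMap.mulLeft ℂ (show S from a), m1 a⟩
      M₂ := fun a => ⟨LinearMap.mulLeft ℂ (show S from a), m2 a⟩
      hM₁ := fun a b => rfl
      hM₂ := fun a b => rfl
      X := fun K => (⟨monomial K 1, by
        have := hS (MvPolynomial.monomial K 1)
        rwa [MvPolynomial.coe_monomial] at this⟩ : S)
      hX := fun K => rfl }
  obtain ⟨c1, c2⟩ := D.main
  exact le_antisymm (continuous_id_iff_le.1 c2) (continuous_id_iff_le.1 c1)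

end Pool.Agent.H268Z.FAlg
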