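import Pool.Agent.H268Z.FAlg.FNorm

/-!
Uniqueness of the (F)-algebra topology of an (F)-algebra of power series in several variables.
-/

set_option autoImplicit false

namespace Pool.Agent.H268Z.FAlg

open Topology Filter Set MvPowerSeries

/-- Two complete normed groups carrying the same algebra of power series. -/
structure Setup (k : ℕ) (A₁ A₂ : Type) [NormedAddCommGroup A₁] [Module ℂ A₁]
    [NormedAddCommGroup A₂] [Module ℂ A₂] where
  e : A₂ ≃ₗ[ℂ] A₁
  ι : A₁ →ₗ[ℂ] MvPowerSeries (Fin k) ℂ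
  inj : Function.Injective ι
  cont : ∀ n, Continuous fun a => coeff n (ι a)
  M₁ : A₁ → A₁ →L[ℂ] A₁
  M₂ : A₁ → A₂ →L[ℂ] A₂
  hM₁ : ∀ a b, ι (M₁ a b) = ι a * ι b
  hM₂ : ∀ a b, ι (e (M₂ a b)) = ι a * ι (e b)
  X : (Fin k →₀ ℕ) → A₁
  hX : ∀ K, ι (X K) = monomial K 1

/-- an index at which `K` exceeds `J` -/
lemma exists_idx {k : ℕ} (J : Fin k →₀ ℕ) :
    ∃ idx : (Fin k →₀ ℕ) → Option (Fin k), ∀ K, (idx K = none ↔ K ≤ J) ∧
      ∀ i, idx K = some i → Finsupp.single i (J i + 1) ≤ K := by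
  classical
  have : ∀ K : Fin k →₀ ℕ, ∃ o : Option (Fin k), (o = none ↔ K ≤ J) ∧
      ∀ i, o = some i → Finsupp.single i (J i + 1) ≤ K := by
    intro K
    by_cases h : K ≤ J
    · exact ⟨none, by simp [h], by simp⟩
    · have h' := h
      rw [Finsupp.le_def] at h'
      push Not at h'
      obtain ⟨i, hi⟩ := h'
      refine ⟨some i, by simp [h], ?_⟩
      intro j hj
      obtain rfl : i = j := by simpa using hj
      rw [Finsupp.single_le_iff]
      exact hi
  choose idx h using this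
  exact ⟨idx, h⟩

lemma coeff_single_mul {k : ℕ} (J : Fin k →₀ ℕ) (i : Fin k) (φ : MvPowerSeries (Fin k) ℂ) :
    coeff J (monomial (Finsupp.single i (J i + 1)) 1 * φ) = 0 := by
  rw [coeff_monomial_mul, if_neg]
  rw [Finsupp.single_le_iff]
  omega

/-- decomposition of a power series -/
lemma decomp {k : ℕ} (J : Fin k →₀ ℕ) (r : MvPowerSeries (Fin k) ℂ) :
    ∃ s : Fin k → MvPowerSeries (Fin k) ℂ,
      r = ∑ K ∈ Finset.Iic J, coeff K r • monomial K (1 : ℂ) +
        ∑ i, monomial (Finsupp.single i (J i + 1)) 1 * s i := by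
  classical
  obtain ⟨idx, hidx⟩ := exists_idx J
  let s : Fin k → MvPowerSeries (Fin k) ℂ := fun i L =>
    if idx (L + Finsupp.single i (J i + 1)) = some i then
      coeff (L + Finsupp.single i (J i + 1)) r else 0
  have hs : ∀ i L, coeff L (s i) = if idx (L + Finsupp.single i (J i + 1)) = some i then
      coeff (L + Finsupp.single i (J i + 1)) r else 0 := fun i L => rfl
  refine ⟨s, ?_⟩
  ext K
  rw [map_add, map_sum, map_sum]
  have h1 : ∑ L ∈ Finset.Iic J, coeff K (coeff L r • monomial L (1 : ℂ)) =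
      if K ≤ J then coeff K r else 0 := by
    simp only [coeff_smul, coeff_monomial, mul_ite, mul_one, mul_zero]
    rw [Finset.sum_ite_eq]
    simp only [Finset.mem_Iic]
  have h2 : ∀ i, coeff K (monomial (Finsupp.single i (J i + 1)) (1 : ℂ) * s i) =
      if idx K = some i then coeff K r else 0 := by
    intro i
    rw [coeff_monomial_mul, one_mul]
    by_cases h : Finsupp.single i (J i + 1) ≤ K
    · rw [if_pos h, hs, tsub_add_cancel_of_le h]
    · rw [if_neg h, if_neg]
      intro h3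
      exact h ((hidx K).2 i h3)
  rw [h1, Finset.sum_congr rfl fun i _ => h2 i]
  rcases hK : idx K with _ | j
  · rw [if_pos ((hidx K).1.1 hK)]
    simp
  · rw [if_neg (fun h => by rw [(hidx K).1.2 h] at hK; cases hK)]
    simp

variable {k : ℕ} {A₁ A₂ : Type} [NormedAddCommGroup A₁] [Module ℂ A₁] [ContinuousSMul ℂ A₁]
  [NormedAddCommGroup A₂] [Module ℂ A₂] [ContinuousSMul ℂ A₂]

namespace Setup

variable (D : Setup k A₁ A₂)

/-- the closure of the graph -/
def Γ : Submodule ℂ (A₂ × A₁) := (LinearMap.graph D.e.toLinearMap).topologicalClosure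

lemma graph_mem (f : A₂) : (f, D.e f) ∈ D.Γ :=
  Submodule.le_topologicalClosure _ (by simp [LinearMap.mem_graph_iff])

lemma isClosed_Γ : IsClosed (D.Γ : Set (A₂ × A₁)) := Submodule.isClosed_topologicalClosure _

lemma Γ_sub {C : Set (A₂ × A₁)} (hC : IsClosed C) (h : ∀ f, (f, D.e f) ∈ C) :
    (D.Γ : Set (A₂ × A₁)) ⊆ C := by
  refine closure_minimal ?_ hC
  rintro ⟨f, g⟩ hfg
  have : g = D.e f := by simpa [LinearMap.mem_graph_iff] using hfg
  rw [this]
  exact h f

omit [ContinuousSMul ℂ A₁] [ContinuousSMul ℂ A₂] in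
lemma e_M₂ (a : A₁) (b : A₂) : D.e (D.M₂ a b) = D.M₁ a (D.e b) :=
  D.inj (by rw [D.hM₂, D.hM₁])

lemma mul_mem_Γ (a : A₁) {p : A₂ × A₁} (hp : p ∈ D.Γ) : (D.M₂ a p.1, D.M₁ a p.2) ∈ D.Γ := by
  have hc : Continuous fun p : A₂ × A₁ => (D.M₂ a p.1, D.M₁ a p.2) := by fun_prop
  refine D.Γ_sub (D.isClosed_Γ.preimage hc) (fun f => ?_) hp
  show (D.M₂ a f, D.M₁ a (D.e f)) ∈ D.Γ
  rw [← D.e_M₂]
  exact D.graph_mem _

/-- the separating space, seen in the second space -/
def I : Submodule ℂ A₂ := D.Γ.comap (LinearMap.inl ℂ A₂ A₁)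

lemma isClosed_I : IsClosed (D.I : Set A₂) :=
  D.isClosed_Γ.preimage (show Continuous fun a : A₂ => ((a, 0) : A₂ × A₁) by fun_prop)

lemma mem_I (h : A₂) : h ∈ D.I ↔ ((0 : A₂), D.e h) ∈ D.Γ := by
  show ((h, 0) : A₂ × A₁) ∈ D.Γ ↔ _
  constructor
  · intro h1
    simpa using D.Γ.sub_mem (D.graph_mem h) h1
  · intro h1
    simpa using D.Γ.sub_mem (D.graph_mem h) h1

lemma M₂_mem_I (a : A₁) {h : A₂} (hh : h ∈ D.I) : D.M₂ a h ∈ D.I := by
  have := D.mul_mem_Γ a (show ((h, 0) : A₂ × A₁) ∈ D.Γ from hh)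
  simp only [map_zero] at this
  exact this

omit [ContinuousSMul ℂ A₁] [ContinuousSMul ℂ A₂] in
lemma M₂_X_X (K L : Fin k →₀ ℕ) (b : A₂) :
    D.M₂ (D.X K) (D.M₂ (D.X L) b) = D.M₂ (D.X (K + L)) b := by
  apply D.e.injective
  apply D.inj
  rw [D.hM₂, D.hM₂, D.hM₂, D.hX, D.hX, D.hX, ← mul_assoc, monomial_mul_monomial, one_mul]

lemma approx [CompleteSpace A₁] [CompleteSpace A₂] {g : A₂} (hg : g ∈ D.I)
    (c : MvPowerSeries (Fin k) ℂ) {ε : ℝ} (hε : 0 < ε) :
    ∃ (F : A₂) (E : A₁), ‖F‖ ≤ ε ∧ ‖E‖ ≤ ε ∧ D.ι (D.e F - E) = c * D.ι (D.e g) := by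
  classical
  have := Encodable.ofCountable (Fin k →₀ ℕ)
  obtain ⟨w, hw, s, hws, hsε⟩ := posSumOfEncodable hε (Fin k →₀ ℕ)
  have hex : ∀ K : Fin k →₀ ℕ, ∃ f : A₂, (∀ L ≤ K, ‖D.M₂ (D.X L) f‖ ≤ w K) ∧
      ‖D.M₁ (D.X K) (D.e f - coeff K c • D.e g)‖ ≤ w K := by
    intro K
    have h1 : ((0 : A₂), coeff K c • D.e g) ∈ D.Γ := by
      have := D.Γ.smul_mem (coeff K c) ((D.mem_I g).1 hg)
      simpa using this
    let U : Set (A₂ × A₁) := (⋂ L ∈ Finset.Iic K, {p | ‖D.M₂ (D.X L) p.1‖ < w K}) ∩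
      {p | ‖D.M₁ (D.X K) (p.2 - coeff K c • D.e g)‖ < w K}
    have hU : IsOpen U := by
      refine IsOpen.inter (isOpen_biInter_finset fun L _ => ?_) ?_
      · exact isOpen_lt (by fun_prop) continuous_const
      · exact isOpen_lt (by fun_prop) continuous_const
    have hmem : ((0 : A₂), coeff K c • D.e g) ∈ U := by
      refine ⟨?_, ?_⟩
      · simp only [mem_iInter]
        intro L _
        simpa using hw K
      · simpa using hw K
    obtain ⟨⟨f, h⟩, ⟨hp1, hp2⟩, hp3⟩ := mem_closure_iff.1 h1 U hU hmem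
    have h4 : h = D.e f := by simpa [LinearMap.mem_graph_iff] using hp3
    subst h4
    refine ⟨f, fun L hL => ?_, le_of_lt hp2⟩
    simp only [mem_iInter] at hp1
    exact le_of_lt (hp1 L (Finset.mem_Iic.2 hL))
  choose f hf1 hf2 using hex
  have hsF : Summable fun K => D.M₂ (D.X K) (f K) :=
    Summable.of_norm_bounded hws.summable fun K => hf1 K K le_rfl
  have hsE : Summable fun K => D.M₁ (D.X K) (D.e (f K) - coeff K c • D.e g) :=
    Summable.of_norm_bounded hws.summable hf2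
  refine ⟨∑' K, D.M₂ (D.X K) (f K), ∑' K, D.M₁ (D.X K) (D.e (f K) - coeff K c • D.e g),
    (tsum_of_norm_bounded hws fun K => hf1 K K le_rfl).trans hsε,
    (tsum_of_norm_bounded hws hf2).trans hsε, ?_⟩
  ext J
  obtain ⟨idx, hidx⟩ := exists_idx J
  -- the coefficient of `E`
  have hE : coeff J (D.ι (∑' K, D.M₁ (D.X K) (D.e (f K) - coeff K c • D.e g))) =
      ∑ K ∈ Finset.Iic J, coeff J (D.ι (D.M₁ (D.X K) (D.e (f K) - coeff K c • D.e g))) := by
    have h1 := hsE.hasSum.map ((coeff J).comp D.ι : A₁ →ₗ[ℂ] ℂ) (D.cont J)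
    refine h1.unique (hasSum_sum_of_ne_finset_zero fun K hK => ?_)
    show coeff J (D.ι (D.M₁ (D.X K) (D.e (f K) - coeff K c • D.e g))) = 0
    rw [D.hM₁, D.hX, coeff_monomial_mul, if_neg (by simpa using hK)]
  -- the coefficient of `F`
  have hG : ∀ i : Fin k, Summable fun K => if idx K = some i then
      D.M₂ (D.X (K - Finsupp.single i (J i + 1))) (f K) else 0 := by
    intro i
    refine Summable.of_norm_bounded hws.summable fun K => ?_
    split_ifs
    · exact hf1 K _ tsub_le_self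
    · simpa using (hw K).le
  have hF : (∑' K, D.M₂ (D.X K) (f K)) = ∑ K ∈ Finset.Iic J, D.M₂ (D.X K) (f K) +
      ∑ i, D.M₂ (D.X (Finsupp.single i (J i + 1))) (∑' K, if idx K = some i then
        D.M₂ (D.X (K - Finsupp.single i (J i + 1))) (f K) else 0) := by
    have h1 : HasSum (fun K => if K ∈ Finset.Iic J then D.M₂ (D.X K) (f K) else 0)
        (∑ K ∈ Finset.Iic J, D.M₂ (D.X K) (f K)) := by
      have h2 : HasSum (fun K => if K ∈ Finset.Iic J then D.M₂ (D.X K) (f K) else 0)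
          (∑ K ∈ Finset.Iic J, if K ∈ Finset.Iic J then D.M₂ (D.X K) (f K) else 0) :=
        hasSum_sum_of_ne_finset_zero fun K hK => if_neg hK
      rwa [Finset.sum_congr rfl fun K hK => if_pos hK] at h2
    have h3 := hasSum_sum (s := Finset.univ) fun i _ =>
      (hG i).hasSum.mapL (D.M₂ (D.X (Finsupp.single i (J i + 1))))
    refine hsF.hasSum.unique ?_
    convert h1.add h3 using 2 with K
    rcases hK : idx K with _ | j
    · rw [if_pos (Finset.mem_Iic.2 ((hidx K).1.1 hK))]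
      simp
    · rw [if_neg (fun h => by rw [(hidx K).1.2 (Finset.mem_Iic.1 h)] at hK; cases hK), zero_add,
        Finset.sum_eq_single j]
      · rw [if_pos rfl, D.M₂_X_X, add_tsub_cancel_of_le ((hidx K).2 j hK)]
      · intro i _ hij
        rw [if_neg (by simpa using hij.symm), map_zero]
      · simp
  rw [map_sub, map_sub, hE, hF]
  simp only [map_add, map_sum, D.hM₂, D.hX, D.hM₁, coeff_single_mul, Finset.sum_const_zero,
    add_zero]
  rw [← Finset.sum_sub_distrib]
  obtain ⟨s, hs⟩ := decomp J c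
  conv_rhs => rw [hs]
  simp only [add_mul, Finset.sum_mul, map_add, map_sum, mul_assoc, coeff_single_mul,
    Finset.sum_const_zero, add_zero]
  refine Finset.sum_congr rfl fun K _ => ?_
  simp only [map_sub, map_smul, mul_sub, mul_smul_comm, smul_mul_assoc, sub_sub_cancel]

lemma mul_mem [CompleteSpace A₁] [CompleteSpace A₂] {g : A₂} (hg : g ∈ D.I)
    (c : MvPowerSeries (Fin k) ℂ) : ∃ h ∈ D.I, D.ι (D.e h) = c * D.ι (D.e g) := by
  obtain ⟨F, E, -, -, h⟩ := D.approx hg c one_pos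
  refine ⟨D.e.symm (D.e F - E), ?_, by rw [LinearEquiv.apply_symm_apply, h]⟩
  rw [D.mem_I, LinearEquiv.apply_symm_apply]
  refine D.isClosed_Γ.closure_subset ?_
  rw [Metric.mem_closure_iff]
  intro ε hε
  obtain ⟨F', E', h1, h2, h3⟩ := D.approx hg c (half_pos hε)
  have h4 : D.e F - E = D.e F' - E' := D.inj (h.trans h3.symm)
  refine ⟨(F', D.e F'), D.graph_mem _, ?_⟩
  rw [h4, Prod.dist_eq, dist_eq_norm, dist_eq_norm]
  simp only [zero_sub, norm_neg, sub_sub_cancel_left]
  exact max_lt (by linarith) (by linarith)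

/-- the separating space as an ideal of the full algebra -/
def II [CompleteSpace A₁] [CompleteSpace A₂] : Ideal (MvPowerSeries (Fin k) ℂ) where
  carrier := {r | ∃ h ∈ D.I, D.ι (D.e h) = r}
  add_mem' := by
    rintro _ _ ⟨a, ha, rfl⟩ ⟨b, hb, rfl⟩
    exact ⟨a + b, D.I.add_mem ha hb, by simp⟩
  zero_mem' := ⟨0, D.I.zero_mem, by simp⟩
  smul_mem' := by
    rintro c _ ⟨g, hg, rfl⟩
    exact D.mul_mem hg c

lemma cont_on_I [CompleteSpace A₁] [CompleteSpace A₂] (J : Fin k →₀ ℕ) :
    Continuous fun h : D.I => coeff J (D.ι (D.e h)) := by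
  classical
  have hcomp : CompleteSpace D.I := D.isClosed_I.completeSpace_coe
  obtain ⟨n, gen, hgen⟩ := Submodule.fg_iff_exists_fin_generating_family.1
    (IsNoetherian.noetherian (D.II : Submodule _ _))
  have hg : ∀ j, ∃ h ∈ D.I, D.ι (D.e h) = gen j := fun j => by
    have : gen j ∈ D.II := by
      rw [← hgen]
      exact Submodule.subset_span ⟨j, rfl⟩
    exact this
  choose g hgI hg using hg
  let N : A₁ → D.I →L[ℂ] D.I := fun a =>
    ((D.M₂ a).comp D.I.subtypeL).codRestrict D.I fun h => D.M₂_mem_I a h.2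
  have hN : ∀ a (h : D.I), D.ι (D.e (N a h : D.I)) = D.ι a * D.ι (D.e h) := fun a h =>
    D.hM₂ a h
  let b : Finset.Iic J × Fin n → D.I := fun t => N (D.X t.1) ⟨g t.2, hgI t.2⟩
  let ψ₁ : (Fin k → D.I) →L[ℂ] D.I :=
    ∑ i, (N (D.X (Finsupp.single i (J i + 1)))).comp (ContinuousLinearMap.proj i)
  let ψ₂ : (Finset.Iic J × Fin n → ℂ) →ₗ[ℂ] D.I := Fintype.linearCombination ℂ b
  have hψ₂ : Continuous ψ₂ := LinearMap.continuous_of_finiteDimensional _
  let ψ : ((Fin k → D.I) × (Finset.Iic J × Fin n → ℂ)) →ₗ[ℂ] D.I :=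
    LinearMap.coprod ψ₁.toLinearMap ψ₂
  have hψ : Continuous ψ := by
    show Continuous fun p : (Fin k → D.I) × (Finset.Iic J × Fin n → ℂ) => ψ₁ p.1 + ψ₂ p.2
    fun_prop
  let lam : D.I →ₗ[ℂ] MvPowerSeries (Fin k) ℂ := D.ι ∘ₗ D.e.toLinearMap ∘ₗ D.I.subtype
  have hlam : ∀ h : D.I, lam h = D.ι (D.e h) := fun h => rfl
  have hlaminj : Function.Injective lam := fun a b hab =>
    Subtype.ext (D.e.injective (D.inj hab))
  have hψ₁ : ∀ h : Fin k → D.I, lam (ψ₁ h) =
      ∑ i, monomial (Finsupp.single i (J i + 1)) 1 * lam (h i) := by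
    intro h
    simp only [ψ₁, _root_.sum_apply, map_sum]
    refine Finset.sum_congr rfl fun i _ => ?_
    rw [hlam, hlam, ContinuousLinearMap.comp_apply, hN, D.hX]
    rfl
  have hb : ∀ t, lam (b t) = monomial t.1.1 1 * gen t.2 := by
    intro t
    rw [hlam, hN, D.hX, hg]
  have hsurj : Function.Surjective ψ := by
    intro h
    have h1 : lam h ∈ Submodule.span (MvPowerSeries (Fin k) ℂ) (range gen) := by
      rw [hgen]
      exact ⟨h, h.2, rfl⟩
    obtain ⟨r, hr⟩ := (Submodule.mem_span_range_iff_exists_fun _).1 h1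
    choose s hs using fun j => decomp J (r j)
    have h2 : ∀ i, ∃ u ∈ D.I, D.ι (D.e u) = ∑ j, s j i * gen j := by
      intro i
      have : ∑ j, s j i * gen j ∈ D.II := by
        refine Ideal.sum_mem _ fun j _ => Ideal.mul_mem_left _ _ ?_
        exact ⟨g j, hgI j, hg j⟩
      exact this
    choose u huI hu using h2
    refine ⟨(fun i => ⟨u i, huI i⟩, fun t => coeff t.1.1 (r t.2)), hlaminj ?_⟩
    show lam (ψ₁ (fun i => ⟨u i, huI i⟩) + ψ₂ (fun t => coeff t.1.1 (r t.2))) = _
    rw [map_add, hψ₁, ← hr]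
    have h3 : ∀ i, lam (⟨u i, huI i⟩ : D.I) = ∑ j, s j i * gen j := hu
    simp only [ψ₂, Fintype.linearCombination_apply, map_sum, map_smul, hb, h3]
    rw [Fintype.sum_prod_type, Finset.sum_comm (s := Finset.univ (α := Finset.Iic J))]
    simp only [Finset.mul_sum]
    rw [Finset.sum_comm, ← Finset.sum_add_distrib]
    refine Finset.sum_congr rfl fun j _ => ?_
    conv_rhs => rw [hs j]
    rw [smul_eq_mul, add_mul, add_comm, Finset.sum_mul, Finset.sum_mul,
      Finset.sum_coe_sort (Finset.Iic J)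
        (fun K => coeff K (r j) • (monomial K (1 : ℂ) * gen j))]
    simp only [mul_assoc, smul_mul_assoc]
  refine continuous_of_comp ψ hψ hsurj ((coeff J).comp lam) ?_
  have : (fun x => ((coeff J).comp lam) (ψ x)) =
      fun x => (((coeff J).comp lam).comp ψ₂) x.2 := by
    funext x
    show coeff J (lam (ψ₁ x.1 + ψ₂ x.2)) = coeff J (lam (ψ₂ x.2))
    rw [map_add, map_add, hψ₁, map_sum]
    simp only [coeff_single_mul, Finset.sum_const_zero, zero_add]
  rw [this]
  exact (LinearMap.continuous_of_finiteDimensional _).comp continuous_snd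

lemma cont_of_ne [CompleteSpace A₁] [CompleteSpace A₂] {g : A₂} (hg : g ∈ D.I) (hg0 : g ≠ 0)
    (K : Fin k →₀ ℕ) : Continuous fun a : A₂ => coeff K (D.ι (D.e a)) := by
  classical
  set G := D.ι (D.e g) with hG
  have hprod : ∀ J, Continuous fun a : A₂ => coeff J (G * D.ι (D.e a)) := by
    intro J
    have hmem : ∀ a : A₂, D.M₂ (D.e g) a ∈ D.I := by
      intro a
      have : D.M₂ (D.e g) a = D.M₂ (D.e a) g := by
        apply D.e.injective
        apply D.inj
        rw [D.hM₂, D.hM₂, mul_comm]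
      rw [this]
      exact D.M₂_mem_I _ hg
    have h1 : Continuous fun a : A₂ => (⟨D.M₂ (D.e g) a, hmem a⟩ : D.I) := by fun_prop
    have h2 := (D.cont_on_I J).comp h1
    refine h2.congr fun a => ?_
    show coeff J (D.ι (D.e (D.M₂ (D.e g) a))) = _
    rw [D.hM₂]
  have hG0 : G ≠ 0 := by
    intro h
    apply hg0
    apply D.e.injective
    apply D.inj
    rw [← hG, h, map_zero, map_zero]
  let mo : MonomialOrder (Fin k) := MonomialOrder.lex
  have hne : (mo.toSyn '' {p | coeff p G ≠ 0}).Nonempty := by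
    by_contra hc
    apply hG0
    ext p
    by_contra hp
    exact hc ⟨_, p, by simpa using hp, rfl⟩
  obtain ⟨_, ⟨m, hm, rfl⟩, hmin⟩ := WellFounded.has_min wellFounded_lt _ hne
  have hind : ∀ x : mo.syn, ∀ K, mo.toSyn K = x →
      Continuous fun a : A₂ => coeff K (D.ι (D.e a)) := by
    intro x
    induction x using WellFoundedLT.induction with
    | ind x ih =>
      intro K hK
      have hmem : (m, K) ∈ Finset.HasAntidiagonal.antidiagonal (m + K) := by simp
      have h1 : ∀ a : A₂, coeff K (D.ι (D.e a)) = (coeff m G)⁻¹ *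
          (coeff (m + K) (G * D.ι (D.e a)) - ∑ p ∈ (Finset.HasAntidiagonal.antidiagonal (m + K)).erase (m, K),
            coeff p.1 G * coeff p.2 (D.ι (D.e a))) := by
        intro a
        rw [coeff_mul, ← Finset.add_sum_erase _ _ hmem, add_sub_cancel_right, ← mul_assoc,
          inv_mul_cancel₀ hm, one_mul]
      simp only [h1]
      refine continuous_const.mul ((hprod _).sub (continuous_finsetSum _ fun p hp => ?_))
      by_cases hp0 : coeff p.1 G = 0
      · simp only [hp0, zero_mul]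
        exact continuous_const
      · refine continuous_const.mul (ih (mo.toSyn p.2) ?_ p.2 rfl)
        obtain ⟨hp1, hp2⟩ := Finset.mem_erase.1 hp
        rw [Finset.HasAntidiagonal.mem_antidiagonal] at hp2
        have h3 : mo.toSyn m ≤ mo.toSyn p.1 := not_lt.1 (hmin _ ⟨p.1, hp0, rfl⟩)
        have h4 : mo.toSyn p.1 + mo.toSyn p.2 = mo.toSyn m + mo.toSyn K := by
          rw [← map_add, ← map_add, hp2]
        rw [← hK]
        by_contra hc
        push Not at hc
        have h5 : mo.toSyn p.1 + mo.toSyn K ≤ mo.toSyn m + mo.toSyn K := by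
          rw [← h4]
          exact add_le_add_right hc _
        have h6 : mo.toSyn m + mo.toSyn K ≤ mo.toSyn p.1 + mo.toSyn K := add_le_add_left h3 _
        have h7 : p.1 + K = m + K := by
          apply mo.toSyn.injective
          rw [map_add, map_add]
          exact le_antisymm h5 h6
        have h8 : p.1 = m := add_right_cancel h7
        have h9 : p.2 = K := by
          rw [h8] at hp2
          exact add_left_cancel hp2
        exact hp1 (Prod.ext h8 h9)
  exact hind _ K rfl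

lemma I_eq_zero [CompleteSpace A₁] [CompleteSpace A₂] {g : A₂} (hg : g ∈ D.I) : g = 0 := by
  by_contra hg0
  apply hg0
  apply D.e.injective
  apply D.inj
  ext J
  have hC : IsClosed {p : A₂ × A₁ | coeff J (D.ι (D.e p.1)) = coeff J (D.ι p.2)} :=
    isClosed_eq ((D.cont_of_ne hg hg0 J).comp continuous_fst) ((D.cont J).comp continuous_snd)
  have := D.Γ_sub hC (fun f => rfl) (show ((g, 0) : A₂ × A₁) ∈ D.Γ from hg)
  simpa using this

theorem main [CompleteSpace A₁] [CompleteSpace A₂] : Continuous D.e ∧ Continuous D.e.symm := by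
  have hcomp : CompleteSpace D.Γ := D.isClosed_Γ.completeSpace_coe
  have hΓ : ∀ p : D.Γ, D.e p.1.1 = p.1.2 := by
    rintro ⟨⟨f, h⟩, hp⟩
    have h1 : f - D.e.symm h ∈ D.I := by
      have := D.Γ.sub_mem hp (D.graph_mem (D.e.symm h))
      simp only [LinearEquiv.apply_symm_apply, Prod.mk_sub_mk, sub_self] at this
      exact this
    have h2 := sub_eq_zero.1 (D.I_eq_zero h1)
    show D.e f = h
    rw [h2, LinearEquiv.apply_symm_apply]
  constructor
  · refine continuous_of_comp ((LinearMap.fst ℂ A₂ A₁).comp D.Γ.subtype)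
      (continuous_fst.comp continuous_subtype_val) (fun f => ⟨⟨_, D.graph_mem f⟩, rfl⟩)
      D.e.toLinearMap ?_
    exact (continuous_snd.comp continuous_subtype_val).congr fun p => (hΓ p).symm
  · refine continuous_of_comp ((LinearMap.snd ℂ A₂ A₁).comp D.Γ.subtype)
      (continuous_snd.comp continuous_subtype_val)
      (fun h => ⟨⟨_, D.graph_mem (D.e.symm h)⟩, D.e.apply_symm_apply h⟩)
      D.e.symm.toLinearMap ?_
    refine (continuous_fst.comp continuous_subtype_val).congr fun p => ?_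
    show p.1.1 = D.e.symm p.1.2
    rw [← hΓ p, LinearEquiv.symm_apply_apply]

end Setup

end Pool.Agent.H268Z.FAlg
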